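import Pool.Agent.Helper27.UC.Goals7

/-!
# Project UC part 5 (MP_d3128a_ag), packet TGP
-/

set_option autoImplicit false

namespace Pool.Agent.Helper85.UC.TGP

open Pool.Agent.Helper27.UC

theorem cfil (T : Multiset (ℕ × ℕ)) (q : ℕ × ℕ → Prop) [DecidablePred q] (x : ℕ) :
    ((T.filter q).map Prod.fst).count x = Multiset.card (T.filter fun a => x = a.1 ∧ q a) := by
  rw [Multiset.count_map, Multiset.filter_filter]

theorem cdiag (T : Multiset (ℕ × ℕ)) (x : ℕ) :
    Multiset.card (T.filter fun a => x = a.1 ∧ a.1 = a.2) = T.count (x, x) := by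
  rw [Multiset.count, Multiset.countP_eq_card_filter]
  congr 1
  apply Multiset.filter_congr
  rintro ⟨a, b⟩ _
  simp only [Prod.mk.injEq]
  constructor
  · rintro ⟨rfl, rfl⟩; exact ⟨rfl, rfl⟩
  · rintro ⟨rfl, h⟩; exact ⟨rfl, h⟩

theorem cR (T : Multiset (ℕ × ℕ)) (C x : ℕ) (hx : C ≤ 2 * T.count (x, x)) :
    ((T.filter fun p => p.1 = p.2 ∧ C ≤ 2 * T.count p).map Prod.fst).count x = T.count (x, x) := by
  rw [cfil, ← cdiag]
  congr 1
  apply Multiset.filter_congr
  rintro ⟨a, b⟩ _
  dsimp only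
  constructor
  · rintro ⟨h1, h2, _⟩; exact ⟨h1, h2⟩
  · rintro ⟨rfl, rfl⟩; exact ⟨rfl, rfl, hx⟩

theorem cR0 (T : Multiset (ℕ × ℕ)) (C x : ℕ) (hx : ¬ C ≤ 2 * T.count (x, x)) :
    ((T.filter fun p => p.1 = p.2 ∧ C ≤ 2 * T.count p).map Prod.fst).count x = 0 := by
  rw [cfil, Multiset.card_eq_zero, Multiset.filter_eq_nil]
  rintro ⟨a, b⟩ _ ⟨h1, h2, h3⟩
  dsimp only at h1 h2 h3
  subst h1; subst h2
  exact hx h3

theorem t (hs : S_SPL2) : S_TGP := by
  intro K n m T hK hnm hc hn hp hW
  obtain ⟨C, hC⟩ : ∃ C, C = 10 ^ 9 * K ^ 4 := ⟨_, rfl⟩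
  rw [← hC] at hn hW
  have hp' : ∀ p ∈ T, p.2 ≤ p.1 ∧ p.1 ≤ m ∧ m ≤ K * p.2 ∧ C ≤ (T.map Prod.fst).count p.1 := by
    intro p hpT
    rw [hC]
    exact hp p hpT
  clear hp
  have k2 : K ^ 2 ≤ K ^ 4 := Nat.pow_le_pow_right hK (by norm_num)
  have k3 : K ^ 3 ≤ K ^ 4 := Nat.pow_le_pow_right hK (by norm_num)
  have k1 : K ≤ K ^ 4 := by
    calc K = K ^ 1 := (pow_one K).symm
      _ ≤ K ^ 4 := Nat.pow_le_pow_right hK (by norm_num)
  have k0 : 1 ≤ K ^ 4 := Nat.one_le_pow _ _ hK
  have k20 : 1 ≤ K ^ 2 := Nat.one_le_pow _ _ hK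
  have k23 : K * K ^ 2 = K ^ 3 := by ring
  have hCpos : 0 < C := by omega
  obtain ⟨R, hR⟩ : ∃ R, R = T.filter fun p => p.1 = p.2 ∧ C ≤ 2 * T.count p := ⟨_, rfl⟩
  obtain ⟨P0, hP0⟩ : ∃ P0, P0 = T.filter fun p => ¬ (p.1 = p.2 ∧ C ≤ 2 * T.count p) := ⟨_, rfl⟩
  have hT : R + P0 = T := by
    rw [hR, hP0]; exact Multiset.filter_add_not _ _
  obtain ⟨R', hR'⟩ : ∃ R', R' = R.map Prod.fst := ⟨_, rfl⟩
  have hR's : R.map Prod.snd = R' := by
    rw [hR']
    apply Multiset.map_congr rfl
    intro p hpR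
    rw [hR, Multiset.mem_filter] at hpR
    exact hpR.2.1.symm
  have hRc : ∀ x, C ≤ 2 * T.count (x, x) → R'.count x = T.count (x, x) := by
    intro x hx
    rw [hR', hR]; exact cR T C x hx
  have hRc0 : ∀ x, ¬ C ≤ 2 * T.count (x, x) → R'.count x = 0 := by
    intro x hx
    rw [hR', hR]; exact cR0 T C x hx
  have hRmem : ∀ x ∈ R', C ≤ 2 * T.count (x, x) := by
    intro x hx
    by_contra h
    have := hRc0 x h
    rw [Multiset.count_eq_zero] at this
    exact this hx
  have hRT : ∀ x ∈ R', (x, x) ∈ T := by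
    intro x hx
    have := hRmem x hx
    rw [← Multiset.count_pos]
    omega
  obtain ⟨g, r0, B2, B0, hA, hB, hcount⟩ := hs (30 * K ^ 2) R' 0 (by
    intro v hv
    rw [add_zero] at hv ⊢
    have h1 := hRmem v hv
    rw [hRc v h1]
    omega)
  have hB0 : B0 = 0 := by
    have h := congrArg Multiset.card hB
    rw [Multiset.card_zero, Multiset.card_add] at h
    rw [← Multiset.card_eq_zero]
    omega
  rw [hB0] at hcount
  simp only [add_zero] at hcount
  -- counts
  have hRg : ∀ v, R'.count v = 4 * g.count v + r0.count v := by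
    intro v
    conv_lhs => rw [hA]
    rw [Multiset.count_add, Multiset.count_nsmul]
  have hr0R : ∀ v ∈ r0, v ∈ R' := by
    intro v hv
    rw [hA]; exact Multiset.mem_add.2 (Or.inr hv)
  have hgR : ∀ v ∈ g, v ∈ R' := by
    intro v hv
    rw [← Multiset.count_pos, hRg]
    have := Multiset.count_pos.2 hv
    omega
  have hcR : Multiset.card R' = 4 * Multiset.card g + Multiset.card r0 := by
    conv_lhs => rw [hA]
    rw [Multiset.card_add, Multiset.card_nsmul]
  have hcT : Multiset.card R' + Multiset.card P0 = n := by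
    rw [← hc, ← hT, Multiset.card_add, hR', Multiset.card_map]
  -- the sum
  obtain ⟨W, hWdef⟩ : ∃ W, W = (T.map fun p => p.1 - p.2).sum := ⟨_, rfl⟩
  rw [← hWdef] at hW
  have hWP : (P0.map fun p => p.1 - p.2).sum ≤ W := by
    rw [hWdef, ← hT, Multiset.map_add, Multiset.sum_add]
    omega
  -- nondiagonal
  have hND : Multiset.card (P0.filter fun p => ¬ p.1 = p.2) ≤ W := by
    refine le_trans ?_ hWP
    have h1 : P0 = P0.filter (fun p => p.1 = p.2) + P0.filter (fun p => ¬ p.1 = p.2) :=
      (Multiset.filter_add_not _ _).symm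
    conv_rhs => rw [h1]
    rw [Multiset.map_add, Multiset.sum_add]
    refine le_trans ?_ (Nat.le_add_left _ _)
    have h2 : Multiset.card (P0.filter fun p => ¬ p.1 = p.2) =
        ((P0.filter fun p => ¬ p.1 = p.2).map fun _ => 1).sum := by simp
    rw [h2]
    apply Multiset.sum_map_le_sum_map
    intro p hpp
    rw [Multiset.mem_filter] at hpp
    have h3 : p ∈ T := by rw [← hT]; exact Multiset.mem_add.2 (Or.inr hpp.1)
    have h4 := (hp' p h3).1
    have h5 := hpp.2
    omega
  have hTx : ∀ x, (T.map Prod.fst).count x = R'.count x + (P0.map Prod.fst).count x := by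
    intro x
    conv_lhs => rw [← hT]
    rw [Multiset.map_add, Multiset.count_add, hR']
  have hD : (P0.filter fun p => p.1 = p.2).map Prod.fst ≤
      (P0.filter fun p => ¬ p.1 = p.2).map Prod.fst := by
    rw [Multiset.le_iff_count]
    intro x
    by_cases hx : x ∈ (P0.filter fun p => p.1 = p.2).map Prod.fst
    · rw [Multiset.mem_map] at hx
      obtain ⟨p, hp1, hp2⟩ := hx
      rw [Multiset.mem_filter] at hp1
      obtain ⟨hp1, hp3⟩ := hp1
      have hpT : p ∈ T := by rw [← hT]; exact Multiset.mem_add.2 (Or.inr hp1)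
      rw [hP0, Multiset.mem_filter] at hp1
      have hpx : p = (x, x) := by
        rw [Prod.ext_iff]; exact ⟨hp2, by rw [← hp3]; exact hp2⟩
      have hlt : ¬ C ≤ 2 * T.count (x, x) := by
        intro h
        exact hp1.2 ⟨hp3, by rw [hpx]; exact h⟩
      have h1 := (hp' p hpT).2.2.2
      rw [hp2, hTx, hRc0 x hlt, zero_add] at h1
      have h2 : (P0.map Prod.fst).count x = ((P0.filter fun p => p.1 = p.2).map Prod.fst).count x +
          ((P0.filter fun p => ¬ p.1 = p.2).map Prod.fst).count x := by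
        rw [← Multiset.count_add, ← Multiset.map_add, Multiset.filter_add_not]
      have h3 : ((P0.filter fun p => p.1 = p.2).map Prod.fst).count x ≤ T.count (x, x) := by
        rw [cfil, cdiag]
        exact Multiset.count_le_of_le _ (by rw [hP0]; exact Multiset.filter_le _ _)
      omega
    · rw [Multiset.count_eq_zero.2 hx]; exact Nat.zero_le _
  have hcP0 : Multiset.card P0 ≤ 2 * W := by
    have h1 := Multiset.card_le_card hD
    rw [Multiset.card_map, Multiset.card_map] at h1
    have h2 : Multiset.card P0 = Multiset.card (P0.filter fun p => p.1 = p.2) +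
        Multiset.card (P0.filter fun p => ¬ p.1 = p.2) := by
      rw [← Multiset.card_add, Multiset.filter_add_not]
    omega
  -- r0
  have hcr0 : C * Multiset.card r0 ≤ 72 * K ^ 2 * Multiset.card R' := by
    have h1 : C • r0 ≤ (72 * K ^ 2) • R' := by
      rw [Multiset.le_iff_count]
      intro v
      rw [Multiset.count_nsmul, Multiset.count_nsmul]
      by_cases hv : v ∈ r0
      · have hvR := hr0R v hv
        have h2 := hRmem v hvR
        have h3 := hRc v h2
        have h4 := (hcount v hvR).2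
        have h5 : r0.count v ≤ 36 * K ^ 2 := by omega
        calc C * r0.count v ≤ (2 * R'.count v) * (36 * K ^ 2) := by
              apply Nat.mul_le_mul _ h5
              rw [h3]; exact h2
          _ = 72 * K ^ 2 * R'.count v := by ring
      · rw [Multiset.count_eq_zero.2 hv, mul_zero]; exact Nat.zero_le _
    have h6 := Multiset.card_le_card h1
    rw [Multiset.card_nsmul, Multiset.card_nsmul] at h6
    exact h6
  refine ⟨g, P0 + r0.map (fun v => (v, v)), ?_, hK, by omega, hnm, ?_, ?_, ?_, ?_, ?_⟩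
  · conv_lhs => rw [← hT]
    rw [Multiset.map_add, Multiset.map_add, hR's, Multiset.map_map]
    have h1 : r0.map (Prod.snd ∘ fun v => (v, v)) = r0 := by
      have : (Prod.snd ∘ fun v : ℕ => (v, v)) = id := by funext v; rfl
      rw [this, Multiset.map_id]
    rw [h1]
    conv_lhs => rw [hA]
    rw [add_assoc, add_comm r0]
  · rw [Multiset.card_add, Multiset.card_map]; omega
  · intro v hv
    have hvR := hgR v hv
    have h1 := hp' _ (hRT v hvR)
    refine ⟨h1.2.1, h1.2.2.1, ?_⟩
    have h2 := hRmem v hvR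
    have h3 := hRc v h2
    have h4 := (hcount v hvR).2
    have h5 := hRg v
    omega
  · intro p hpP
    rw [Multiset.map_add, Multiset.count_add, Multiset.map_map]
    have h1 : r0.map (Prod.fst ∘ fun v => (v, v)) = r0 := by
      have : (Prod.fst ∘ fun v : ℕ => (v, v)) = id := by funext v; rfl
      rw [this, Multiset.map_id]
    rw [h1]
    rw [Multiset.mem_add] at hpP
    rcases hpP with hpP | hpP
    · have hpT : p ∈ T := by rw [← hT]; exact Multiset.mem_add.2 (Or.inr hpP)
      have h2 := hp' p hpT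
      refine ⟨h2.1, h2.2.1, h2.2.2.1, ?_⟩
      by_cases hx : C ≤ 2 * T.count (p.1, p.1)
      · have h3 : p.1 ∈ R' := by
          rw [← Multiset.count_pos, hRc _ hx]; omega
        have h4 := (hcount _ h3).1
        omega
      · have h3 := h2.2.2.2
        rw [hTx, hRc0 _ hx] at h3
        omega
    · rw [Multiset.mem_map] at hpP
      obtain ⟨v, hv, rfl⟩ := hpP
      have hvR := hr0R v hv
      have h2 := hp' _ (hRT v hvR)
      refine ⟨h2.1, h2.2.1, h2.2.2.1, ?_⟩
      have h4 := (hcount _ hvR).1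
      dsimp only
      omega
  · rw [Multiset.card_add, Multiset.card_map]
    have h1 : C * (1000 * K * (Multiset.card P0 + Multiset.card r0)) ≤ C * n := by
      have h2 : Multiset.card R' ≤ n := by omega
      have h3 : C * Multiset.card r0 ≤ 72 * K ^ 2 * n :=
        hcr0.trans (Nat.mul_le_mul_left _ h2)
      have h4 : C * Multiset.card P0 ≤ 2 * n := by
        calc C * Multiset.card P0 ≤ C * (2 * W) := Nat.mul_le_mul_left _ hcP0
          _ = 2 * (C * W) := by ring
          _ ≤ 2 * n := Nat.mul_le_mul_left _ hW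
      calc C * (1000 * K * (Multiset.card P0 + Multiset.card r0))
          = 1000 * K * (C * Multiset.card P0 + C * Multiset.card r0) := by ring
        _ ≤ 1000 * K * (2 * n + 72 * K ^ 2 * n) := Nat.mul_le_mul_left _ (by omega)
        _ = (2000 * K + 72000 * K ^ 3) * n := by ring
        _ ≤ C * n := Nat.mul_le_mul_right _ (by omega)
    exact Nat.le_of_mul_le_mul_left h1 hCpos
  · rw [Multiset.map_add, Multiset.sum_add, Multiset.map_map]
    have h1 : (r0.map ((fun p : ℕ × ℕ => p.1 - p.2) ∘ fun v => (v, v))).sum = 0 := by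
      have : ((fun p : ℕ × ℕ => p.1 - p.2) ∘ fun v : ℕ => (v, v)) = fun _ => 0 := by
        funext v; simp
      rw [this]; simp
    rw [h1, add_zero]
    calc 1000 * K * (P0.map fun p => p.1 - p.2).sum ≤ C * W := by
          apply Nat.mul_le_mul _ hWP
          omega
      _ ≤ n := hW

end Pool.Agent.Helper85.UC.TGP
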